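import Pool.Agent.Y262.EG.Stm

/-!
# EG-DENS: density of the `C¹` functions on the unit tangent bundle (project EG of helper262)
-/

set_option autoImplicit false
set_option linter.unusedSectionVars false

open Set Filter Topology MeasureTheory
open scoped ContDiff

noncomputable section

namespace Pool.Agent.Y385.EG

open Pool.Agent.Y262.EG

variable {M P : Type} [MetricSpace M] [CompactSpace M] [MetricSpace P] [CompactSpace P]

/-- the algebra of the `C¹` functions -/
def alg (hA : StAlgP) {Ω : Set ℂ} {φ : ℂ → ℝ} {pr : ℂ → M} {q : Y → P} (hU : IsUT Ω φ pr q) :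
    Subalgebra ℝ C(P, ℝ) where
  carrier := {g | AcP Ω q g}
  mul_mem' := by
    intro a b ha hb
    exact (hA M P Ω φ pr q hU).2.2.1 a b ha hb
  add_mem' := by
    intro a b ha hb
    have h1 := (hA M P Ω φ pr q hU).2.1 a b ha hb 1 1
    have h2 : (fun x => 1 * a x + 1 * b x) = ⇑(a + b) := by
      funext x; simp
    rw [h2] at h1
    exact h1
  algebraMap_mem' := by
    intro r
    have h0 := (hA M P Ω φ pr q hU).1
    have h1 := (hA M P Ω φ pr q hU).2.1 _ _ h0 h0 r 0
    have h2 : (fun _ : P => r * (1 : ℝ) + 0 * 1) = ⇑(algebraMap ℝ C(P, ℝ) r) := by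
      funext x; simp
    rw [h2] at h1
    exact h1

lemma sep (hD : StDWP) (hA : StAlgP) (hP : StPush) {Ω : Set ℂ} {φ : ℂ → ℝ} {pr : ℂ → M}
    {q : Y → P} (hU : IsUT Ω φ pr q) : (alg hA hU).SeparatesPoints := by
  intro x x' hxx
  obtain ⟨hl, -, hc⟩ := hD M P Ω φ pr q hU
  set p := lft Ω q x with hp
  obtain ⟨hpY, hpq⟩ := hl x
  obtain ⟨r, hr, hrY, hinj, hpush⟩ := hP M P Ω φ pr q hU p hpY
  -- a small ball whose image does not contain `x'`
  have hcont : ContinuousWithinAt q (YO Ω) p := hU.contq p hpY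
  have hev : ∀ᶠ y in 𝓝 p, q y ≠ x' := by
    have h1 : ∀ᶠ y in 𝓝[YO Ω] p, q y ≠ x' := by
      have h2 : {x'}ᶜ ∈ 𝓝 (q p) := isOpen_compl_singleton.mem_nhds (by
        rw [hpq]; exact hxx)
      exact hcont.eventually h2
    have h3 : YO Ω ∈ 𝓝 p := Filter.mem_of_superset (Metric.ball_mem_nhds p hr) hrY
    rwa [nhdsWithin_eq_nhds.2 h3] at h1
  obtain ⟨ρ', hρ', hball⟩ := Metric.eventually_nhds_iff_ball.1 hev
  set ρ := min ρ' r / 2 with hρ
  have hmin : 0 < min ρ' r := lt_min hρ' hr
  have hρ0 : 0 < ρ := half_pos hmin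
  have hρ1 : ρ < ρ' := lt_of_lt_of_le (half_lt_self hmin) (min_le_left _ _)
  have hρ2 : ρ < r := lt_of_lt_of_le (half_lt_self hmin) (min_le_right _ _)
  let u : ContDiffBump p := ⟨ρ / 2, ρ, half_pos hρ0, half_lt_self hρ0⟩
  have hts : tsupport u = Metric.closedBall p ρ := u.tsupport_eq
  have h1 : tsupport u ⊆ Metric.ball p r := by
    rw [hts]; exact Metric.closedBall_subset_ball hρ2
  obtain ⟨F, hFA, hFu, hF0⟩ := hpush u (u.contDiff) u.hasCompactSupport h1
  have hFc : Continuous F := (hc F hFA).1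
  refine ⟨F, ⟨⟨F, hFc⟩, hFA, rfl⟩, ?_⟩
  have e1 : F x = 1 := by
    have h2 := hFu p (Metric.mem_ball_self hr)
    rw [hpq] at h2
    rw [h2]
    exact u.one_of_mem_closedBall (Metric.mem_closedBall_self (half_pos hρ0).le)
  have e2 : F x' = 0 := by
    apply hF0
    rintro ⟨y, hy, hyx⟩
    rw [hts] at hy
    exact hball y (Metric.closedBall_subset_ball hρ1 hy) hyx
  rw [e1, e2]
  exact one_ne_zero

/-- DENS -/
theorem dens : StEt → StDWP → StAlgP → StPush → StDens := by
  intro _ hD hA hP M P _ _ _ _ _ _ Ω φ pr q m hU hm f hf hfb ε hε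
  obtain ⟨C0, hC0⟩ := hfb
  set C := max C0 0 + 1 with hC
  have hCpos : 0 < C := by
    have := le_max_right C0 0
    linarith
  have hfC : ∀ x, |f x| ≤ C := fun x => (hC0 x).trans (by
    have := le_max_left C0 0
    linarith)
  set Mm : ℝ := m.real univ with hMm
  have hMm0 : 0 ≤ Mm := measureReal_nonneg
  -- integrable
  have hfi : Integrable f m :=
    Integrable.of_bound hf.aestronglyMeasurable C (Filter.Eventually.of_forall hfC)
  -- continuous approximation in mean
  set δ := ε / (8 * C) with hδ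
  have hδ0 : 0 < δ := by positivity
  obtain ⟨g0, hg0, hg0i⟩ := hfi.exists_boundedContinuous_integral_sub_le hδ0
  -- uniform approximation
  set η := min 1 (ε / (4 * (Mm + 1))) with hη
  have hη0 : 0 < η := lt_min one_pos (by positivity)
  set g1 : P → ℝ := fun x => max (min (g0 x) C) (-C) with hg1
  have hg1c : Continuous g1 := (g0.continuous.min continuous_const).max continuous_const
  obtain ⟨g, hg⟩ := ContinuousMap.exists_mem_subalgebra_near_continuous_of_separatesPoints
    (alg hA hU) (sep hD hA hP hU) g1 hg1c η hη0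
  refine ⟨(g : C(P, ℝ)), g.2, ?_⟩
  -- pointwise bound
  have hpt : ∀ x, (f x - (g : C(P, ℝ)) x) ^ 2 ≤ 4 * C * ‖f x - g0 x‖ + 2 * η ^ 2 := by
    intro x
    have h1 := abs_le.1 (hfC x)
    have h2 : |f x - g1 x| ≤ |f x - g0 x| := by
      rw [hg1]
      simp only
      rcases le_total (g0 x) C with h3 | h3
      · rw [min_eq_left h3]
        rcases le_total (-C) (g0 x) with h4 | h4
        · rw [max_eq_left h4]
        · rw [max_eq_right h4, abs_of_nonneg (by linarith), abs_of_nonneg (by linarith)]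
          linarith
      · rw [min_eq_right h3, max_eq_left (by linarith), abs_of_nonpos (by linarith),
          abs_of_nonpos (by linarith)]
        linarith
    have h3 : |f x - g1 x| ≤ 2 * C := by
      have h4 : |g1 x| ≤ C := by
        rw [abs_le]
        exact ⟨le_max_right _ _, max_le (min_le_right _ _) (by linarith)⟩
      have h5 := abs_le.1 h4
      rw [abs_le]
      constructor <;> linarith [h1.1, h1.2, h5.1, h5.2]
    have h4 : (f x - g1 x) ^ 2 ≤ 2 * C * |f x - g0 x| := by
      rw [← sq_abs, sq]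
      exact mul_le_mul h3 h2 (abs_nonneg _) (by positivity)
    have h5 : |g1 x - (g : C(P, ℝ)) x| ≤ η := by
      have := (hg x).le
      rw [Real.norm_eq_abs, abs_sub_comm] at this
      exact this
    have h6 : (g1 x - (g : C(P, ℝ)) x) ^ 2 ≤ η ^ 2 := by
      rw [← sq_abs]
      exact pow_le_pow_left₀ (abs_nonneg _) h5 2
    have h7 : (f x - (g : C(P, ℝ)) x) ^ 2 ≤
        2 * (f x - g1 x) ^ 2 + 2 * (g1 x - (g : C(P, ℝ)) x) ^ 2 := by
      nlinarith [sq_nonneg ((f x - g1 x) - (g1 x - (g : C(P, ℝ)) x))]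
    rw [Real.norm_eq_abs]
    linarith
  have hi1 : Integrable (fun x => ‖f x - g0 x‖) m := (hfi.sub hg0i).norm
  have hi2 : Integrable (fun x => 4 * C * ‖f x - g0 x‖ + 2 * η ^ 2) m :=
    (hi1.const_mul _).add (integrable_const _)
  have hle : ∫ x, (f x - (g : C(P, ℝ)) x) ^ 2 ∂m ≤
      ∫ x, (4 * C * ‖f x - g0 x‖ + 2 * η ^ 2) ∂m :=
    integral_mono_of_nonneg (Filter.Eventually.of_forall fun x => sq_nonneg _) hi2
      (Filter.Eventually.of_forall hpt)
  refine hle.trans ?_
  rw [integral_add (hi1.const_mul _) (integrable_const _), integral_const_mul, integral_const,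
    smul_eq_mul]
  have h8 : 4 * C * ∫ x, ‖f x - g0 x‖ ∂m ≤ ε / 2 := by
    calc 4 * C * ∫ x, ‖f x - g0 x‖ ∂m ≤ 4 * C * δ :=
          mul_le_mul_of_nonneg_left hg0 (by positivity)
      _ = ε / 2 := by rw [hδ]; field_simp; ring
  have h9 : m.real univ * (2 * η ^ 2) ≤ ε / 2 := by
    rw [← hMm]
    have h10 : η ^ 2 ≤ ε / (4 * (Mm + 1)) := by
      calc η ^ 2 = η * η := sq η
        _ ≤ 1 * η := mul_le_mul_of_nonneg_right (min_le_left _ _) hη0.le
        _ = η := one_mul η
        _ ≤ ε / (4 * (Mm + 1)) := min_le_right _ _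
    calc Mm * (2 * η ^ 2) ≤ (Mm + 1) * (2 * (ε / (4 * (Mm + 1)))) :=
          mul_le_mul (by linarith) (by linarith) (by positivity) (by positivity)
      _ = ε / 2 := by field_simp; ring
  linarith

end Pool.Agent.Y385.EG

end
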